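import Pool.Agent.N838.CR.Stm

/-! Project CR (helper838), leaf DIM: dependent vectors. -/

set_option autoImplicit false

namespace N698.CR.DIM

open N838.CR

theorem t_DIM : DIM := by
  classical
  intro n e f I S hn
  have hli : ¬ LinearIndependent ℂ (Sum.elim (fun i : {i // i ∈ I} => e i)
      (fun j : {j // j ∈ S} => f j)) := by
    intro h
    have h1 := h.fintype_card_le_finrank
    rw [finrank_euclideanSpace_fin, Fintype.card_sum, Fintype.card_coe, Fintype.card_coe] at h1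
    omega
  obtain ⟨g, hg, x0, hx0⟩ := Fintype.not_linearIndependent_iff.1 hli
  obtain ⟨c, hc⟩ : ∃ c : Fin n → ℂ, c = fun i => if h : i ∈ I then g (Sum.inl ⟨i, h⟩) else 0 :=
    ⟨_, rfl⟩
  obtain ⟨d, hd⟩ : ∃ d : Fin n → ℂ, d = fun j => if h : j ∈ S then -g (Sum.inr ⟨j, h⟩) else 0 :=
    ⟨_, rfl⟩
  have hcI : ∀ a : {i // i ∈ I}, c a = g (Sum.inl a) := by
    intro a
    rw [hc]
    exact dif_pos a.2
  have hdS : ∀ a : {j // j ∈ S}, d a = -g (Sum.inr a) := by
    intro a
    rw [hd]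
    exact dif_pos a.2
  refine ⟨c, d, ?_, ?_⟩
  · rw [Fintype.sum_sum_type] at hg
    simp only [Sum.elim_inl, Sum.elim_inr] at hg
    rw [← Finset.sum_coe_sort I, ← Finset.sum_coe_sort S]
    simp only [hcI, hdS, neg_smul, Finset.sum_neg_distrib]
    exact eq_neg_of_add_eq_zero_left hg
  · rcases x0 with a | a
    · exact Or.inl ⟨a, a.2, by rw [hcI]; exact hx0⟩
    · exact Or.inr ⟨a, a.2, by rw [hdS]; exact neg_ne_zero.2 hx0⟩

end N698.CR.DIM
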